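import Pool.Agent.Tower332.Main

/-!
Problem MP_332571_pr, Q1 (affirmative answer): `f(d) = min {n : p_c(Z_n^d, d) ≤ 1/4}` grows like a
tower of `2`s of height `Θ(d)`.
-/

set_option autoImplicit false

namespace Pool.Agent.Results.MP_332571_pr.TowerGrowth

open Pool.Agent.Tower332

theorem result : ∃ c C : ℝ, 0 < c ∧ c ≤ C ∧ ∃ d₀ : ℕ, ∀ d ≥ d₀,
    tower ⌊c * d⌋₊ ≤ thresholdSize d ∧ thresholdSize d ≤ tower ⌈C * d⌉₊ :=
  main

end Pool.Agent.Results.MP_332571_pr.TowerGrowth
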